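import Mathlib

/-!
# MID Nz: distance to the nearest integer, and the one-step relation

`nz t = |t - round t|`.  `Rel C n P η F F' α α' R`: `R` is a set of triples `(K, p, G)`, `K ∈ F`, `G ∈ F'`, `p` a prime in
`(P, 2P]`, with `|G p - K P| ≤ C P` and `‖p α(K) - α'(G)‖ ≤ η`; all indices of `F` and `F'` lie in `[n/C, C n]`.
-/

set_option autoImplicit false

namespace Pool.Agent.H53.MID

open Finset

/-- the distance to the nearest integer -/
noncomputable def nz (t : ℝ) : ℝ := |t - round t|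

theorem nz_nonneg (t : ℝ) : 0 ≤ nz t := abs_nonneg _

theorem nz_le_of (t : ℝ) (m : ℤ) : nz t ≤ |t - m| := round_le t m

theorem nz_exists (t : ℝ) : ∃ m : ℤ, |t - m| = nz t := ⟨round t, rfl⟩

theorem nz_le_abs (t : ℝ) : nz t ≤ |t| := by simpa using nz_le_of t 0

theorem nz_add (s t : ℝ) : nz (s + t) ≤ nz s + nz t := by
  refine (nz_le_of (s + t) (round s + round t)).trans ?_
  unfold nz
  push_cast
  have h : s + t - (round s + round t) = (s - round s) + (t - round t) := by ring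
  rw [h]
  exact abs_add_le _ _

theorem nz_neg (t : ℝ) : nz (-t) = nz t := by
  apply le_antisymm
  · refine (nz_le_of (-t) (-round t)).trans (le_of_eq ?_)
    unfold nz
    push_cast
    rw [← abs_neg]
    congr 1
    ring
  · refine (nz_le_of t (-round (-t))).trans (le_of_eq ?_)
    unfold nz
    push_cast
    rw [← abs_neg]
    congr 1
    ring

theorem nz_sub (s t : ℝ) : nz (s - t) ≤ nz s + nz t := by
  rw [sub_eq_add_neg, ← nz_neg t]
  exact nz_add _ _

theorem nz_add_int (t : ℝ) (m : ℤ) : nz (t + m) = nz t := by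
  unfold nz
  rw [round_add_intCast]
  push_cast
  congr 1
  ring

theorem nz_sub_int (t : ℝ) (m : ℤ) : nz (t - m) = nz t := by
  have h := nz_add_int t (-m)
  push_cast at h
  rw [← sub_eq_add_neg] at h
  exact h

theorem nz_int_mul (k : ℤ) (t : ℝ) : nz (k * t) ≤ |(k : ℝ)| * nz t := by
  refine (nz_le_of (k * t) (k * round t)).trans (le_of_eq ?_)
  unfold nz
  push_cast
  rw [← mul_sub, abs_mul]

theorem nz_nat_mul (k : ℕ) (t : ℝ) : nz (k * t) ≤ k * nz t := by
  have h := nz_int_mul (k : ℤ) t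
  simpa using h

theorem nz_eq_abs (t : ℝ) (h : |t| < 1 / 2) : nz t = |t| := by
  have h2 : round t = 0 := by
    rw [round_eq_zero_iff]
    rw [abs_lt] at h
    exact ⟨by linarith [h.1], by linarith [h.2]⟩
  unfold nz
  rw [h2]
  simp

theorem nz_triangle (s t u : ℝ) : nz (s - u) ≤ nz (s - t) + nz (t - u) := by
  have h : s - u = (s - t) + (t - u) := by ring
  rw [h]
  exact nz_add _ _

/-- a fraction with denominator `d` which is not an integer is at distance `≥ 1/d` from the integers -/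
theorem nz_frac_ge (a : ℤ) (d : ℕ) (hd : 0 < d) (h : ¬ (d : ℤ) ∣ a) : 1 / (d : ℝ) ≤ nz ((a : ℝ) / d) := by
  have hd0 : (0 : ℝ) < d := by exact_mod_cast hd
  obtain ⟨m, hm⟩ := nz_exists ((a : ℝ) / d)
  rw [← hm]
  have h1 : (a : ℝ) / d - m = ((a - d * m : ℤ) : ℝ) / d := by
    push_cast
    field_simp
  rw [h1, abs_div, abs_of_pos hd0]
  refine div_le_div_of_nonneg_right ?_ hd0.le
  have h2 : a - d * m ≠ 0 := by
    intro h3
    exact h ⟨m, by linarith⟩
  have h3 : 1 ≤ |a - d * m| := Int.one_le_abs h2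
  exact_mod_cast h3

/-- the one-step relation -/
structure Rel (C : ℝ) (n P : ℕ) (η : ℝ) (F F' : Finset ℕ) (α α' : ℕ → ℝ) (R : Finset (ℕ × ℕ × ℕ)) : Prop where
  memF : ∀ t ∈ R, t.1 ∈ F
  memF' : ∀ t ∈ R, t.2.2 ∈ F'
  prime : ∀ t ∈ R, t.2.1.Prime ∧ P < t.2.1 ∧ t.2.1 ≤ 2 * P
  pos : ∀ t ∈ R, |(t.2.2 : ℝ) * t.2.1 - t.1 * P| ≤ C * P
  freq : ∀ t ∈ R, nz (t.2.1 * α t.1 - α' t.2.2) ≤ η
  rngF : ∀ K ∈ F, (n : ℝ) / C ≤ K ∧ (K : ℝ) ≤ C * n
  rngF' : ∀ K ∈ F', (n : ℝ) / C ≤ K ∧ (K : ℝ) ≤ C * n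

end Pool.Agent.H53.MID
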